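import Pool.Agent.MP_dcb13e_co.H59.Spec

/-! Minors of a graph with no clique minor of order `t` have average degree `O(t^2)`. -/

namespace Pool.Agent.MP_dcb13e_co.H33

open Pool.Agent.MP_dcb13e_co.H59 Finset

variable {V ι : Type} {G : SimpleGraph V}

open Classical in
/-- the neighbours of a piece -/
noncomputable def nbr (G : SimpleGraph V) (S : Finset ι) (B : ι → Set V) (i : ι) : Finset ι :=
  S.filter (fun j => j ≠ i ∧ AdjS G (B i) (B j))

lemma mem_nbr {S : Finset ι} {B : ι → Set V} {i j : ι} :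
    j ∈ nbr G S B i ↔ j ∈ S ∧ j ≠ i ∧ AdjS G (B i) (B j) := by
  classical
  unfold nbr
  rw [mem_filter]

lemma nbr_symm {S : Finset ι} {B : ι → Set V} {i j : ι} (hi : i ∈ S) (h : j ∈ nbr G S B i) :
    i ∈ nbr G S B j :=
  mem_nbr.2 ⟨hi, (mem_nbr.1 h).2.1.symm, (mem_nbr.1 h).2.2.symm⟩

lemma sum_ind [DecidableEq ι] (S T : Finset ι) :
    ∑ i ∈ S, (if i ∈ T then 1 else 0) ≤ T.card := by
  rw [← card_filter]
  exact card_le_card fun i hi => (mem_filter.1 hi).2

lemma del [DecidableEq ι] {S : Finset ι} (B : ι → Set V) {v : ι} (hv : v ∈ S) :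
    ∑ i ∈ S, (nbr G S B i).card ≤
      ∑ i ∈ S.erase v, (nbr G (S.erase v) B i).card + 2 * (nbr G S B v).card := by
  have h1 : ∑ i ∈ S.erase v, (nbr G S B i).card ≤ ∑ i ∈ S.erase v,
      ((nbr G (S.erase v) B i).card + if i ∈ nbr G S B v then 1 else 0) := by
    refine sum_le_sum fun i hi => ?_
    have hs : (nbr G S B i).erase v ⊆ nbr G (S.erase v) B i := fun j hj =>
      mem_nbr.2 ⟨mem_erase.2 ⟨(mem_erase.1 hj).1, (mem_nbr.1 (mem_erase.1 hj).2).1⟩,
        (mem_nbr.1 (mem_erase.1 hj).2).2⟩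
    have h2 := card_le_card hs
    split_ifs with h
    · have := pred_card_le_card_erase (s := nbr G S B i) (a := v)
      omega
    · rwa [erase_eq_of_notMem fun h' => h (nbr_symm (mem_erase.1 hi).2 h')] at h2
  rw [sum_add_distrib] at h1
  have h3 := sum_ind (S.erase v) (nbr G S B v)
  rw [← add_sum_erase S _ hv]
  omega

lemma contr [DecidableEq ι] {S : Finset ι} (B : ι → Set V) {p q : ι} (hp : p ∈ S)
    (hq : q ∈ nbr G S B p) :
    ∑ i ∈ S, (nbr G S B i).card ≤
      ∑ i ∈ S.erase q, (nbr G (S.erase q) (Function.update B p (B p ∪ B q)) i).card + 2 +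
        2 * (nbr G S B p ∩ nbr G S B q).card := by
  obtain ⟨hqS, hqp, -⟩ := mem_nbr.1 hq
  set B' := Function.update B p (B p ∪ B q) with hB'
  have hle : ∀ j, B j ⊆ B' j := fun j => by
    by_cases h : j = p
    · subst h
      rw [hB', Function.update_self]
      exact Set.subset_union_left
    · rw [hB', Function.update_of_ne h]
  have hqle : B q ⊆ B' p := by
    rw [hB', Function.update_self]
    exact Set.subset_union_right
  have hs : ∀ i, (nbr G S B i).erase q ⊆ nbr G (S.erase q) B' i := fun i j hj => by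
    obtain ⟨h1, h2⟩ := mem_erase.1 hj
    obtain ⟨h3, h4, h5⟩ := mem_nbr.1 h2
    exact mem_nbr.2 ⟨mem_erase.2 ⟨h1, h3⟩, h4, h5.mono (hle _) (hle _)⟩
  have hp' : p ∈ S.erase q := mem_erase.2 ⟨hqp.symm, hp⟩
  have h1 : ∑ i ∈ (S.erase q).erase p, (nbr G S B i).card ≤ ∑ i ∈ (S.erase q).erase p,
      ((nbr G (S.erase q) B' i).card + if i ∈ nbr G S B p ∩ nbr G S B q then 1 else 0) := by
    refine sum_le_sum fun i hi => ?_
    obtain ⟨hip, hi⟩ := mem_erase.1 hi
    obtain ⟨hiq, hi⟩ := mem_erase.1 hi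
    have h2 := card_le_card (hs i)
    split_ifs with h
    · have := pred_card_le_card_erase (s := nbr G S B i) (a := q)
      omega
    · by_cases h3 : q ∈ nbr G S B i
      · have h4 : p ∉ (nbr G S B i).erase q := fun h' =>
          h (mem_inter.2 ⟨nbr_symm hi (mem_erase.1 h').2, nbr_symm hi h3⟩)
        have h5 : insert p ((nbr G S B i).erase q) ⊆ nbr G (S.erase q) B' i :=
          insert_subset (mem_nbr.2 ⟨hp', hip.symm, (mem_nbr.1 h3).2.2.mono (hle _) hqle⟩) (hs i)
        have h6 := card_le_card h5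
        rw [card_insert_of_notMem h4] at h6
        have := pred_card_le_card_erase (s := nbr G S B i) (a := q)
        omega
      · rwa [erase_eq_of_notMem h3] at h2
  have h2 : ((nbr G S B p ∪ nbr G S B q).erase q).erase p ⊆ nbr G (S.erase q) B' p := by
    intro j hj
    obtain ⟨hjp, hj⟩ := mem_erase.1 hj
    obtain ⟨hjq, hj⟩ := mem_erase.1 hj
    rcases mem_union.1 hj with h | h
    · exact hs p (mem_erase.2 ⟨hjq, h⟩)
    · exact mem_nbr.2 ⟨mem_erase.2 ⟨hjq, (mem_nbr.1 h).1⟩, hjp,
        (mem_nbr.1 h).2.2.mono hqle (hle _)⟩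
  have h3 := card_le_card h2
  have h4 := pred_card_le_card_erase (s := (nbr G S B p ∪ nbr G S B q).erase q) (a := p)
  have h5 := pred_card_le_card_erase (s := nbr G S B p ∪ nbr G S B q) (a := q)
  have h6 := card_union_add_card_inter (nbr G S B p) (nbr G S B q)
  have h7 := sum_ind ((S.erase q).erase p) (nbr G S B p ∩ nbr G S B q)
  rw [sum_add_distrib] at h1
  rw [← add_sum_erase S _ hqS, ← add_sum_erase (S.erase q) _ hp',
    ← add_sum_erase (S.erase q) _ hp']
  omega

lemma three [DecidableEq ι] (A B C : Finset ι) :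
    A.card + B.card + C.card ≤
      (A ∪ B ∪ C).card + (A ∩ B).card + (A ∩ C).card + (B ∩ C).card := by
  have h1 := card_union_add_card_inter A B
  have h2 := card_union_add_card_inter (A ∪ B) C
  have h3 := card_union_le (A ∩ C) (B ∩ C)
  rw [union_inter_distrib_right] at h2
  omega

lemma ramsey [DecidableEq ι] (g : ι → ι → Prop) (hs : ∀ p q, g p q → g q p) (t k : ℕ) :
    ∀ T : Finset ι, (∀ p ∈ T, ∀ q ∈ T, ∀ r ∈ T, g p q ∨ g p r ∨ g q r) → k * t ≤ T.card →
      ∃ Q ⊆ T, (∀ p ∈ Q, ∀ q ∈ Q, g p q) ∧ (k ≤ Q.card ∨ t ≤ Q.card) := by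
  classical
  induction k with
  | zero => exact fun T _ _ => ⟨∅, empty_subset _, by simp, Or.inl (Nat.zero_le _)⟩
  | succ k ih =>
    intro T hT hc
    rcases Nat.eq_zero_or_pos t with h0 | h0
    · exact ⟨∅, empty_subset _, by simp, Or.inr (by omega)⟩
    rw [Nat.succ_mul] at hc
    obtain ⟨p, hp⟩ : T.Nonempty := card_pos.1 (by omega)
    by_cases h : t ≤ (T.filter fun q => ¬ g p q).card
    · refine ⟨_, filter_subset _ _, fun q hq r hr => ?_, Or.inr h⟩
      rw [mem_filter] at hq hr
      exact ((hT p hp q hq.1 r hr.1).resolve_left hq.2).resolve_left hr.2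
    · have hsub : (T.filter fun q => g p q).erase p ⊆ T :=
        (erase_subset _ _).trans (filter_subset _ _)
      have h1 := card_filter_add_card_filter_not (s := T) fun q => g p q
      have h2 := pred_card_le_card_erase (s := T.filter fun q => g p q) (a := p)
      obtain ⟨Q, hQ, hg, hk⟩ := ih _ (fun a ha b hb c hc => hT a (hsub ha) b (hsub hb) c (hsub hc))
        (by omega)
      rcases hk with hk | hk
      · have hpQ : p ∉ Q := fun h' => (mem_erase.1 (hQ h')).1 rfl
        have hpp : g p p := by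
          rcases hT p hp p hp p hp with h' | h' | h' <;> exact h'
        have hpq : ∀ q ∈ Q, g p q := fun q hq => (mem_filter.1 (mem_erase.1 (hQ hq)).2).2
        refine ⟨insert p Q, insert_subset hp (hQ.trans hsub), fun a ha b hb => ?_, Or.inl ?_⟩
        · rcases mem_insert.1 ha with h3 | h3 <;> rcases mem_insert.1 hb with h4 | h4
          · rw [h3, h4]
            exact hpp
          · rw [h3]
            exact hpq b h4
          · rw [h4]
            exact hs _ _ (hpq a h3)
          · exact hg a h3 b h4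
        · rw [card_insert_of_notMem hpQ]
          omega
      · exact ⟨Q, hQ.trans hsub, hg, Or.inr hk⟩

lemma build [DecidableEq ι] {S : Finset ι} {B : ι → Set V} {t : ℕ} (hc : ∀ i ∈ S, Pc G (B i))
    (hd : ∀ i ∈ S, ∀ j ∈ S, i ≠ j → Disjoint (B i) (B j)) {Q : Finset ι} (hQ : Q ⊆ S)
    (ht : t ≤ Q.card)
    (hg : ∀ p ∈ Q, ∀ q ∈ Q, t ^ 2 + t ≤ (nbr G S B p ∩ nbr G S B q).card) : KM G t := by
  obtain ⟨q, hq⟩ : ∃ q : Fin t ↪ ι, ∀ i, q i ∈ Q := by
    obtain ⟨f⟩ : Nonempty (Fin t ↪ Q) := Function.Embedding.nonempty_of_card_le (by simpa)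
    exact ⟨f.trans (Function.Embedding.subtype _), fun i => (f i).2⟩
  let A : Fin t × Fin t → Finset ι := fun z =>
    (nbr G S B (q z.1) ∩ nbr G S B (q z.2)) \ univ.map q
  have hA : ∀ z, t ^ 2 ≤ (A z).card := fun z => by
    have h1 := hg _ (hq z.1) _ (hq z.2)
    have h2 := le_card_sdiff (univ.map q) (nbr G S B (q z.1) ∩ nbr G S B (q z.2))
    rw [card_map, card_univ, Fintype.card_fin] at h2
    show t ^ 2 ≤ ((nbr G S B (q z.1) ∩ nbr G S B (q z.2)) \ univ.map q).card
    omega
  obtain ⟨x, hx, hxA⟩ := (all_card_le_biUnion_card_iff_exists_injective A).1 fun s => by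
    rcases s.eq_empty_or_nonempty with rfl | ⟨z, hz⟩
    · simp
    · have h1 := card_le_univ s
      rw [Fintype.card_prod, Fintype.card_fin, ← sq] at h1
      exact h1.trans ((hA z).trans (card_le_card (subset_biUnion_of_mem A hz)))
  have hx1 : ∀ z, x z ∈ nbr G S B (q z.1) := fun z => (mem_inter.1 (mem_sdiff.1 (hxA z)).1).1
  have hx2 : ∀ z, x z ∈ nbr G S B (q z.2) := fun z => (mem_inter.1 (mem_sdiff.1 (hxA z)).1).2
  have hx3 : ∀ z i, x z ≠ q i := fun z i e =>
    (mem_sdiff.1 (hxA z)).2 (mem_map.2 ⟨i, mem_univ _, e.symm⟩)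
  have hxS : ∀ z, x z ∈ S := fun z => (mem_nbr.1 (hx1 z)).1
  have hqS : ∀ i, q i ∈ S := fun i => hQ (hq i)
  have hne : ∀ i, (B (q i)).Nonempty := fun i => by
    obtain ⟨u, hu, -⟩ := (mem_nbr.1 (hx1 (i, i))).2.2
    exact ⟨u, hu⟩
  refine ⟨fun i => B (q i) ∪ ⋃ j ∈ (Set.univ : Set (Fin t)), B (x (i, j)),
    fun i => ⟨(hne i).mono Set.subset_union_left, pc_star (hc _ (hqS i)) (hne i)
      fun j _ => ⟨hc _ (hxS _), (mem_nbr.1 (hx1 (i, j))).2.2⟩⟩, fun i j hij => ?_,
    fun i j _ => ?_⟩
  · simp only [Set.disjoint_union_left, Set.disjoint_union_right, Set.disjoint_iUnion_left,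
      Set.disjoint_iUnion_right]
    exact ⟨⟨hd _ (hqS i) _ (hqS j) (q.injective.ne hij),
      fun a _ => hd _ (hxS _) _ (hqS j) (hx3 _ _)⟩,
      fun b _ => ⟨hd _ (hqS i) _ (hxS _) (hx3 _ _).symm,
        fun a _ => hd _ (hxS _) _ (hxS _) (hx.ne fun e => hij (congrArg Prod.fst e))⟩⟩
  · refine (mem_nbr.1 (hx2 (i, j))).2.2.symm.mono (fun u hu => Or.inr ?_) Set.subset_union_left
    exact Set.mem_iUnion₂.2 ⟨j, Set.mem_univ _, hu⟩

theorem dens : SDens := by
  intro V ι G t hK S
  classical
  change ∀ B : ι → Set V, _ → _ → ∑ i ∈ S, (nbr G S B i).card ≤ _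
  induction' hn : S.card using Nat.strong_induction_on with n ih generalizing S
  intro B hc hd
  by_contra hD
  push Not at hD
  have hS : S.Nonempty := by
    rcases S.eq_empty_or_nonempty with rfl | h
    · simp at hD
    · exact h
  obtain ⟨v, hv, hmin⟩ := exists_min_image S (fun i => (nbr G S B i).card) hS
  obtain ⟨m, rfl⟩ : ∃ m, n = m + 1 := ⟨n - 1, by have := card_pos.2 hS; omega⟩
  have her : ∀ q ∈ S, (S.erase q).card = m := fun q hq => by rw [card_erase_of_mem hq]; omega
  generalize ha : t ^ 2 + t = c at hD ih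
  obtain ⟨y, hy⟩ : ∃ y, ∑ i ∈ S, (nbr G S B i).card = 2 * (3 * c + 3) * m + y :=
    ⟨_, (Nat.add_sub_cancel' (by nlinarith)).symm⟩
  have hy1 : 2 * (3 * c + 3) < y := by nlinarith
  have h1 : (nbr G S B v).card ≤ y := by
    have h := card_nsmul_le_sum S (fun i => (nbr G S B i).card) _ hmin
    rw [hn, hy, smul_eq_mul] at h
    by_contra h'
    push Not at h'
    nlinarith
  have h2 : y ≤ 2 * (nbr G S B v).card := by
    have h := del (G := G) B hv
    have h' := ih m (by omega) (S.erase v) (her v hv) B (fun i hi => hc i (mem_erase.1 hi).2)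
      fun i hi j hj => hd i (mem_erase.1 hi).2 j (mem_erase.1 hj).2
    omega
  have h3 : ∀ q ∈ nbr G S B v, y ≤ 2 + 2 * (nbr G S B v ∩ nbr G S B q).card := fun q hq => by
    obtain ⟨hqS, hqv, hadj⟩ := mem_nbr.1 hq
    have h := contr B hv hq
    have h' := ih m (by omega) (S.erase q) (her q hqS) (Function.update B v (B v ∪ B q))
      (fun i hi => by
        by_cases e : i = v
        · subst e
          rw [Function.update_self]
          exact pc_union (hc _ hv) (hc _ hqS) hadj
        · rw [Function.update_of_ne e]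
          exact hc i (mem_erase.1 hi).2)
      (fun i hi j hj hij => by
        obtain ⟨hiq, hi⟩ := mem_erase.1 hi
        obtain ⟨hjq, hj⟩ := mem_erase.1 hj
        by_cases e : i = v
        · subst e
          rw [Function.update_self, Function.update_of_ne hij.symm]
          exact Set.disjoint_union_left.2 ⟨hd _ hi _ hj hij, hd _ hqS _ hj hjq.symm⟩
        · rw [Function.update_of_ne e]
          by_cases e' : j = v
          · subst e'
            rw [Function.update_self]
            exact Set.disjoint_union_right.2 ⟨hd _ hi _ hj hij, hd _ hi _ hqS hiq⟩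
          · rw [Function.update_of_ne e']
            exact hd _ hi _ hj hij)
    omega
  obtain ⟨Q, hQ, hg, hk⟩ := ramsey (fun p q => c ≤ ((nbr G S B v ∩ nbr G S B p) ∩
      (nbr G S B v ∩ nbr G S B q)).card) (fun p q h => by rwa [inter_comm]) t t (nbr G S B v)
    (fun p hp q hq r hr => by
      have h4 := three (nbr G S B v ∩ nbr G S B p) (nbr G S B v ∩ nbr G S B q)
        (nbr G S B v ∩ nbr G S B r)
      have h5 := card_le_card (union_subset (union_subset
        (inter_subset_left (s₁ := nbr G S B v) (s₂ := nbr G S B p))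
        (inter_subset_left (s₂ := nbr G S B q))) (inter_subset_left (s₂ := nbr G S B r)))
      have := h3 p hp
      have := h3 q hq
      have := h3 r hr
      omega)
    (by rw [← sq]; omega)
  refine hK (build hc hd (fun i hi => (mem_nbr.1 (hQ hi)).1) (by omega) fun p hp q hq => ?_)
  rw [ha]
  exact (hg p hp q hq).trans (card_le_card (inter_subset_inter inter_subset_right
    inter_subset_right))

end Pool.Agent.MP_dcb13e_co.H33
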